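import Pool.Agent.H288.HS.Stm2

/-!
# Hard spheres: approximation of the partition function by its first coefficients (interpolation)

`φ(z) = - (1/κ) log (1 - α z) = ∑_{i ≥ 1} (α z)^i / (κ i)` with `α = 1 - e^{-κ}` maps `0` to `0` and
`1` to `1`, and a disc of radius `β > 1` to a neighbourhood of `[0, 1]`. The Taylor polynomial at `0`,
evaluated at `1`, of `log (∑_j a_j (l φ(z))^j)` is computed from `a_0, ..., a_m`.
-/

set_option autoImplicit false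

open MeasureTheory Set Filter Topology

namespace Pool.Agent.H288.BI

open Pool.Agent.H288.HS

/-- The coefficients of the logarithm of the power series `∑ p_k z^k` with `p_0 = 1`:
`b_0 = 0`, `b_k = p_k - (1/k) ∑_{j < k} j b_j p_{k-j}`. -/
noncomputable def lc (p : ℕ → ℝ) : ℕ → ℝ
  | 0 => 0
  | k + 1 => p (k + 1) -
      (1 / ((k : ℝ) + 1)) * ∑ j : Fin (k + 1), (j : ℝ) * lc p j * p (k + 1 - j)

/-- The coefficient of `z^k` in `φ(z)^j`, where `φ(z) = ∑_{i ≥ 1} (1 - e^{-κ})^i z^i / (κ i)`. -/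
noncomputable def pc (κ : ℝ) : ℕ → ℕ → ℝ
  | 0 => fun k => if k = 0 then 1 else 0
  | j + 1 => fun k => ∑ i ∈ Finset.range k,
      (1 - Real.exp (-κ)) ^ (i + 1) / (κ * ((i : ℝ) + 1)) * pc κ j (k - (i + 1))

/-- The coefficient of `z^k` in `∑_j a_j (l φ(z))^j`. -/
noncomputable def fc (κ l : ℝ) (a : ℕ → ℝ) (k : ℕ) : ℝ :=
  ∑ j ∈ Finset.range (k + 1), a j * l ^ j * pc κ j k

/-- The approximation of order `m` of `log (∑_j a_j l^j)`: it uses only `a_0, ..., a_m`. -/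
noncomputable def appr (κ l : ℝ) (a : ℕ → ℝ) (m : ℕ) : ℝ :=
  ∑ k ∈ Finset.range (m + 1), lc (fc κ l a) k

/-- **CAU**. On the disc `|z| < β` the function `F` has a holomorphic logarithm `g`, `g 0 = 0`, whose
Taylor coefficients are `lc p` (from `g' F = F'`), real; `F` is real and positive on `[0, 1]`
(continuous, without zeros, `F 0 = 1`), so `g 1 = log (F 1)`. By `|g'| ≤ B` and Cauchy's estimate
`|k b_k| ≤ B β^{1-k}`, and the tail at `z = 1` is at most `B β β^{-m} / (β - 1)`. -/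
def S_CAU : Prop :=
  ∀ (F : ℂ → ℂ) (p : ℕ → ℝ) (β B : ℝ), 1 < β → 0 ≤ B →
    (∀ z : ℂ, ‖z‖ < β → HasSum (fun k : ℕ => (p k : ℂ) * z ^ k) (F z)) → p 0 = 1 →
    (∀ z : ℂ, ‖z‖ < β → F z ≠ 0 ∧ ‖deriv F z‖ ≤ B * ‖F z‖) →
    ∀ m : ℕ, 0 < (F 1).re ∧ (F 1).im = 0 ∧
      |Real.log (F 1).re - ∑ k ∈ Finset.range (m + 1), lc p k| ≤ B * β / (β - 1) * (β⁻¹) ^ m

/-- **MAP**. Take `κ` large (`3 l₁ < ε κ`), `α = 1 - e^{-κ}` and `β > 1` with `α β ≤ 1 - e^{-κ-1}`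
(e.g. `β = (1 - e^{-κ-1}) / (1 - e^{-κ})`), `φ(z) = -(1/κ) log (1 - α z)`. For `|z| < β` the number
`1 - α z` has positive real part and modulus between `e^{-κ-1}` and `2`, so
`-log 2 / κ ≤ Re φ ≤ 1 + 1/κ` and `|Im φ| ≤ π / (2κ)`, and the distance of `φ z` to `[0, 1]` is less
than `3 / κ`. `B = α / (κ e^{-κ-1})`. -/
def S_MAP : Prop :=
  ∀ l₁ ε : ℝ, 0 < l₁ → 0 < ε → ∃ κ β B : ℝ, 0 < κ ∧ 1 < β ∧ 0 < B ∧ ∃ φ : ℂ → ℂ,
    (∀ z : ℂ, ‖z‖ < β → HasSum (fun i : ℕ =>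
      (((1 - Real.exp (-κ)) ^ (i + 1) / (κ * ((i : ℝ) + 1)) : ℝ) : ℂ) * z ^ (i + 1)) (φ z)) ∧
    φ 1 = 1 ∧
    (∀ z : ℂ, ‖z‖ < β → DifferentiableAt ℂ φ z ∧ ‖deriv φ z‖ ≤ B ∧
      ∀ l : ℝ, 0 ≤ l → l ≤ l₁ → (l : ℂ) * φ z ∈ Om l₁ ε)

/-- **CMP**. Since the coefficients of `φ` are nonnegative, everything converges absolutely for
`|z| < β` and the series can be rearranged: `∑_j a_j l^j φ(z)^j = ∑_j a_j l^j ∑_k pc κ j k z^k`,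
`pc κ j k = 0` for `k < j`. (Cauchy products for `φ^j`, by induction on `j`.) -/
def S_CMP : Prop :=
  ∀ (a : ℕ → ℝ) (κ l β : ℝ) (φ : ℂ → ℂ), 0 < κ → 0 < β →
    (∀ z : ℂ, ‖z‖ < β → HasSum (fun i : ℕ =>
      (((1 - Real.exp (-κ)) ^ (i + 1) / (κ * ((i : ℝ) + 1)) : ℝ) : ℂ) * z ^ (i + 1)) (φ z)) →
    (∀ r : ℝ, Summable fun j : ℕ => |a j| * |r| ^ j) →
    ∀ z : ℂ, ‖z‖ < β →
      HasSum (fun k : ℕ => (fc κ l a k : ℂ) * z ^ k) (∑' j : ℕ, (a j : ℂ) * ((l : ℂ) * φ z) ^ j)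

/-- **DEP**. The approximation of order `m` depends only on the first coefficients. -/
def S_DEP : Prop :=
  ∀ (κ l : ℝ) (a a' : ℕ → ℝ) (m : ℕ), (∀ j ≤ m, a j = a' j) → appr κ l a m = appr κ l a' m

/-- **ASM** (assembly of the analytic part). For a family `z L k` with `z L 0 = 1`,
`|z L k| ≤ (L^d)^k / k!` and `FreeR`: by CMP and MAP the function `F z = ZC (l φ z)` satisfies the
hypotheses of CAU with `B' = l₁ B M L^d`; then `B' β / (β - 1) β^{-m} ≤ ε` if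
`m ≥ C (1 + log (L^d / ε))` with `C` large (`log β > 0`). -/
def S_ASM : Prop :=
  S_CAU → S_MAP → S_CMP →
  ∀ (d : ℕ) (z : ℝ → ℕ → ℝ) (l₁ ε₀ M : ℝ), 0 < l₁ → 0 < ε₀ → 0 < M →
    (∀ L : ℝ, 0 < L → z L 0 = 1 ∧ ∀ k, 0 ≤ z L k ∧ z L k ≤ (L ^ d) ^ k / (k.factorial : ℝ)) →
    FreeR d z l₁ ε₀ M →
    ∃ κ : ℝ, 0 < κ ∧ ∃ C : ℝ, 0 < C ∧ ∀ L : ℝ, 1 ≤ L → ∀ l : ℝ, 0 ≤ l → l ≤ l₁ →
      ∀ ε : ℝ, 0 < ε → ε < 1 → ∀ m : ℕ, C * (1 + Real.log (L ^ d / ε)) ≤ m →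
        |Real.log (ZM z L 0 l) - appr κ l (z L) m| ≤ ε

end Pool.Agent.H288.BI
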