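import Pool.Agent.H288.HS.Fin6
import Pool.Agent.H288.BI.Stm

/-!
# Hard spheres: the uniform zero-free region, in every dimension
-/

set_option autoImplicit false

open MeasureTheory Set Filter Topology

namespace Pool.Agent.H288.BI

open Pool.Agent.H288.HS

/-- The zero-free region of the partition functions of hard spheres, for the activities
`l₁ < tmx d / V`. -/
theorem free_all (h : AllS) (hFREE : S_FREEW) (hL : S_LENSX)
    (hG2 : ∀ R : ℝ, 0 < R →
      GeoLimW 2 R 6 (Real.pi * R ^ 2) (19 / 25) (131 / 200 * (Real.pi * R ^ 2)))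
    (hG3 : ∀ R : ℝ, 0 < R →
      GeoLimW 3 R 24 (4 / 3 * Real.pi * R ^ 3) (31 / 40)
        (153 / 200 * (4 / 3 * Real.pi * R ^ 3)))
    (d : ℕ) (hd : 1 ≤ d) (R : ℝ) (hR : 0 < R) (l₁ : ℝ) (hl : 0 < l₁)
    (hlt : l₁ * bv d R < tmx d) :
    ∃ ε : ℝ, 0 < ε ∧ ∃ M : ℝ, 0 < M ∧ FreeR d (zz d R) l₁ ε M := by
  have hπ := Real.pi_pos
  unfold tmx at hlt
  split_ifs at hlt with h2 h3
  · subst h2
    refine hFREE 2 R 6 (Real.pi * R ^ 2) (19 / 25)
      (131 / 200 * (Real.pi * R ^ 2)) l₁ (by norm_num) hR (by norm_num) (by positivity)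
      (by norm_num) (by norm_num) (by positivity) hl.le ?_ (hG2 _ hR)
    rw [bv2' h.bv _ hR] at hlt
    have hGG : GG 6 = 6 / 7 * (7 / 8) ^ 8 := by
      unfold GG; norm_num
    rw [hGG]
    rw [lt_div_iff₀ (by norm_num)] at hlt
    have : l₁ * (6 / 7 * (7 / 8) ^ 8) * (131 / 200 * (Real.pi * R ^ 2)) =
        6 / 7 * (7 / 8) ^ 8 * (l₁ * (Real.pi * R ^ 2) * (131 / 200)) := by ring
    rw [this]
    calc 6 / 7 * (7 / 8) ^ 8 * (l₁ * (Real.pi * R ^ 2) * (131 / 200))
        < 6 / 7 * (7 / 8) ^ 8 * (7 / 6 * (8 / 7) ^ 8) :=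
          mul_lt_mul_of_pos_left hlt (by norm_num)
      _ = 1 := by norm_num
  · subst h3
    refine hFREE 3 R 24 (4 / 3 * Real.pi * R ^ 3) (31 / 40)
      (153 / 200 * (4 / 3 * Real.pi * R ^ 3)) l₁ (by norm_num) hR (by norm_num)
      (by positivity) (by norm_num) (by norm_num) (by positivity) hl.le ?_ (hG3 _ hR)
    rw [bv3 h.bv _ hR] at hlt
    have hGG : GG 24 = 24 / 25 * (25 / 26) ^ 26 := by
      unfold GG; norm_num
    rw [hGG]
    rw [lt_div_iff₀ (by norm_num)] at hlt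
    have : l₁ * (24 / 25 * (25 / 26) ^ 26) * (153 / 200 * (4 / 3 * Real.pi * R ^ 3)) =
        24 / 25 * (25 / 26) ^ 26 * (l₁ * (4 / 3 * Real.pi * R ^ 3) * (153 / 200)) := by ring
    rw [this]
    calc 24 / 25 * (25 / 26) ^ 26 * (l₁ * (4 / 3 * Real.pi * R ^ 3) * (153 / 200))
        < 24 / 25 * (25 / 26) ^ 26 * (25 / 24 * (26 / 25) ^ 26) :=
          mul_lt_mul_of_pos_left hlt (by norm_num)
      _ = 1 := by norm_num
  · obtain ⟨_, _, hb1⟩ := h.bv d 1 hd one_pos
    have hlam : lensv d / bv d 1 ≤ 1 := by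
      rw [div_le_one hb1]; exact lensv_le d
    have h4 : (0:ℝ) < 1 - lensv d / bv d 1 / 2 := by linarith
    have hl0 : 0 ≤ lensv d := measureReal_nonneg
    obtain ⟨r, hr, c, hc⟩ := h.cold d R hd hR
    have hV := bv_pos h.bv d R hd hR
    have hG : GeoLim d R r (bv d R) (bv d R - (R ^ d * lensv d + 0) / 2) := by
      refine h.geo d R r (R ^ d * lensv d) 0 c hd hR (by positivity)
        (hL d R hd hR) hc ?_
      intro δ hδ
      filter_upwards with n j
      have h3 : 0 ≤ wt d n := by unfold wt; positivity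
      have : 0 ≤ wt d n * ({z : Fin d → ℤ | ∑ k, (z k : ℝ) ^ 2 < (n * R) ^ 2 ∧
        c n z = j}.ncard : ℝ) := by positivity
      linarith
    obtain ⟨h1, h2', _⟩ := h.bv d R hd hR
    have e : bv d R - (R ^ d * lensv d + 0) / 2 = bv d R * (1 - lensv d / bv d 1 / 2) := by
      rw [h2']
      field_simp
      ring
    rw [e] at hG
    obtain ⟨hg0, hg1⟩ := h.gge r hr
    refine h.free d R r (bv d R) (bv d R * (1 - lensv d / bv d 1 / 2)) l₁ hd hR hr hV
      (by positivity) hl.le ?_ hG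
    rw [lt_div_iff₀ h4] at hlt
    have h5 : l₁ * GG r * (bv d R * (1 - lensv d / bv d 1 / 2)) =
        GG r * (l₁ * bv d R * (1 - lensv d / bv d 1 / 2)) := by ring
    rw [h5]
    calc GG r * (l₁ * bv d R * (1 - lensv d / bv d 1 / 2))
        < GG r * Real.exp 1 := by
          exact mul_lt_mul_of_pos_left hlt hg0
      _ ≤ Real.exp (-1) * Real.exp 1 := by
          exact mul_le_mul_of_nonneg_right hg1 (Real.exp_pos 1).le
      _ = 1 := by rw [← Real.exp_add]; simp

/-- the bound for the coefficients -/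
theorem fam_le {d : ℕ} {C : ℝ} {z : ℝ → ℕ → ℝ} (h : Fam d C z) (L : ℝ) (hL : 0 < L) (k : ℕ) :
    z L k ≤ (L ^ d) ^ k / (k.factorial : ℝ) := by
  induction k with
  | zero => simp [h.zero L hL]
  | succ k ih =>
    have h1 := h.del L hL k
    have hk : (0 : ℝ) < (k : ℝ) + 1 := by positivity
    have h2 : z L (k + 1) ≤ L ^ d * z L k / ((k : ℝ) + 1) := by
      rw [le_div_iff₀ hk]; linarith
    refine h2.trans ?_
    have h3 : L ^ d * z L k ≤ L ^ d * ((L ^ d) ^ k / (k.factorial : ℝ)) :=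
      mul_le_mul_of_nonneg_left ih (by positivity)
    calc L ^ d * z L k / ((k : ℝ) + 1) ≤ L ^ d * ((L ^ d) ^ k / (k.factorial : ℝ)) / ((k : ℝ) + 1) :=
          div_le_div_of_nonneg_right h3 hk.le
      _ = (L ^ d) ^ (k + 1) / ((k + 1).factorial : ℝ) := by
          rw [Nat.factorial_succ]
          push_cast
          field_simp
          ring

end Pool.Agent.H288.BI
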